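import Mathlib

set_option autoImplicit false

namespace Pool.Agent.Results.MP_bcda77_nt.AlmostPerfectWindow

open Finset

/-- The sum of the positive divisors of `m`. -/
def sig (m : ℕ) : ℕ := ∑ d ∈ m.divisors, d

/-- `k` is a positive deficient number such that `k * n` is not deficient. -/
def Good (n k : ℕ) : Prop := 1 ≤ k ∧ sig k < 2 * k ∧ 2 * (k * n) ≤ sig (k * n)

/-- The least deficient `k` such that `k * n` is not deficient. -/
noncomputable def a (n : ℕ) : ℕ := sInf {k | Good n k}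

/-- The smallest prime above `2 ^ m`. -/
noncomputable def p (m : ℕ) : ℕ := sInf {q | q.Prime ∧ 2 ^ m < q}

/-- `k` is almost perfect: `σ(k) = 2 k - 1`. -/
def IsAlmostPerfect (k : ℕ) : Prop := 1 ≤ k ∧ sig k + 1 = 2 * k

lemma sig_mul {m n : ℕ} (h : m.Coprime n) : sig (m * n) = sig m * sig n :=
  Nat.Coprime.sum_divisors_mul h

lemma sum_two_pow (j : ℕ) : ∑ x ∈ range (j + 1), 2 ^ x + 1 = 2 ^ (j + 1) := by
  induction j with
  | zero => simp
  | succ j ih =>
    rw [sum_range_succ, pow_succ 2 (j + 1)]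
    omega

lemma sig_two_pow (j : ℕ) : sig (2 ^ j) + 1 = 2 ^ (j + 1) := by
  unfold sig
  rw [Nat.sum_divisors_prime_pow Nat.prime_two]
  exact sum_two_pow j

lemma le_sig {n : ℕ} (hn : 1 ≤ n) : n ≤ sig n :=
  Finset.single_le_sum (f := fun d : ℕ => d) (fun _ _ => Nat.zero_le _)
    (Nat.mem_divisors_self n (by omega))

/-- The divisors in a list of distinct divisors sum up to at most `sig n`. -/
lemma sub_sig {n : ℕ} (s : Finset ℕ) (hs : ∀ d ∈ s, d ∣ n) (hn : n ≠ 0) : ∑ d ∈ s, d ≤ sig n :=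
  Finset.sum_le_sum_of_subset fun d hd => Nat.mem_divisors.2 ⟨hs d hd, hn⟩

lemma sig_ge_succ {n : ℕ} (hn : 2 ≤ n) : n + 1 ≤ sig n := by
  have h := sub_sig (n := n) {n, 1} (by simp) (by omega)
  rw [Finset.sum_pair (by omega)] at h
  exact h

lemma sig_ge_div {n p : ℕ} (hn : 1 ≤ n) (hp : 2 ≤ p) (hpn : p ∣ n) : n + n / p ≤ sig n := by
  obtain ⟨m, rfl⟩ := hpn
  have hm : 1 ≤ m := by
    rcases Nat.eq_zero_or_pos m with h | h
    · subst h; simp at hn
    · exact h
  have e : p * m / p = m := Nat.mul_div_cancel_left m (by omega)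
  rw [e]
  have h := sub_sig (n := p * m) {p * m, m} (by simp) (by positivity)
  rw [Finset.sum_pair (by nlinarith)] at h
  exact h

lemma good_even {n : ℕ} (hn : 2 ≤ n) (he : 2 ∣ n) : Good n 1 ∨ Good n 3 := by
  by_cases h3 : 3 ∣ n
  · left
    obtain ⟨m, rfl⟩ : 6 ∣ n := by omega
    refine ⟨le_rfl, by decide, ?_⟩
    rw [one_mul]
    have h := sub_sig (n := 6 * m) {6 * m, 3 * m, 2 * m, m} (by
      intro d hd
      simp only [mem_insert, mem_singleton] at hd
      rcases hd with rfl | rfl | rfl | rfl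
      · exact dvd_rfl
      · exact ⟨2, by ring⟩
      · exact ⟨3, by ring⟩
      · exact ⟨6, by ring⟩) (by omega)
    rw [sum_insert (by simp; omega), sum_insert (by simp; omega), sum_pair (by omega)] at h
    omega
  · right
    refine ⟨by norm_num, by decide, ?_⟩
    have hc : Nat.Coprime 3 n := (Nat.Prime.coprime_iff_not_dvd Nat.prime_three).2 h3
    rw [sig_mul hc]
    have h4 : sig 3 = 4 := by decide
    have h5 := sig_ge_div (n := n) (p := 2) (by omega) le_rfl he
    rw [h4]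
    omega

lemma good_two_pow {n j : ℕ} (ho : ¬ 2 ∣ n)
    (h : 2 ^ (j + 1) * n ≤ (2 ^ (j + 1) - 1) * sig n) : Good n (2 ^ j) := by
  have h1 := sig_two_pow j
  have h2 : 2 ^ (j + 1) = 2 * 2 ^ j := by ring
  have h3 : 1 ≤ 2 ^ j := Nat.one_le_two_pow
  refine ⟨h3, by omega, ?_⟩
  have hc : Nat.Coprime (2 ^ j) n :=
    Nat.Coprime.pow_left _ ((Nat.Prime.coprime_iff_not_dvd Nat.prime_two).2 ho)
  rw [sig_mul hc]
  have h4 : sig (2 ^ j) = 2 ^ (j + 1) - 1 := by omega
  rw [h4]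
  calc 2 * (2 ^ j * n) = 2 ^ (j + 1) * n := by rw [h2]; ring
    _ ≤ _ := h

lemma good_pow_of_dvd {n p j : ℕ} (hn : 1 ≤ n) (ho : ¬ 2 ∣ n) (hp : 2 ≤ p) (hpn : p ∣ n)
    (hj : p < 2 ^ (j + 1)) : Good n (2 ^ j) := by
  apply good_two_pow ho
  have h := sig_ge_div hn hp hpn
  obtain ⟨m, rfl⟩ := hpn
  rw [Nat.mul_div_cancel_left m (by omega)] at h
  obtain ⟨t, ht⟩ : ∃ t, 2 ^ (j + 1) = p + 1 + t := ⟨2 ^ (j + 1) - (p + 1), by omega⟩
  rw [ht]
  have e : p + 1 + t - 1 = p + t := by omega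
  rw [e]
  calc (p + 1 + t) * (p * m) ≤ (p + t) * (p * m + m) := by nlinarith [Nat.zero_le (t * m)]
    _ ≤ _ := Nat.mul_le_mul_left _ h

lemma exists_good {n : ℕ} (hn : 2 ≤ n) : ∃ k, Good n k := by
  by_cases he : 2 ∣ n
  · rcases good_even hn he with h | h
    · exact ⟨_, h⟩
    · exact ⟨_, h⟩
  · exact ⟨_, good_pow_of_dvd (j := n) (by omega) he hn dvd_rfl
      (Nat.lt_two_pow_self.trans (Nat.pow_lt_pow_right (by norm_num) (Nat.lt_succ_self n)))⟩

lemma isLeast_a {n : ℕ} (hn : 2 ≤ n) : IsLeast {k | Good n k} (a n) :=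
  ⟨Nat.sInf_mem (exists_good hn), fun _ hk => Nat.sInf_le hk⟩

lemma a_le {n k : ℕ} (hk : Good n k) : a n ≤ k := Nat.sInf_le hk

lemma isLeast_p (m : ℕ) : IsLeast {q | q.Prime ∧ 2 ^ m < q} (p m) := by
  have hne : {q : ℕ | q.Prime ∧ 2 ^ m < q}.Nonempty := by
    obtain ⟨q, h1, h2⟩ := Nat.exists_infinite_primes (2 ^ m + 1)
    exact ⟨q, h2, by omega⟩
  exact ⟨Nat.sInf_mem hne, fun _ hk => Nat.sInf_le hk⟩

lemma p_lt (m : ℕ) (hm : 1 ≤ m) : p m < 2 ^ (m + 1) := by
  obtain ⟨q, h1, h2, h3⟩ := Nat.exists_prime_lt_and_le_two_mul (2 ^ m) (by positivity)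
  have h4 : p m ≤ q := (isLeast_p m).2 ⟨h1, h2⟩
  have h5 : 2 ^ (m + 1) = 2 * 2 ^ m := by ring
  have h6 : q ≠ 2 * 2 ^ m := by
    intro h
    have h7 : 2 ≤ 2 ^ m := by
      calc 2 = 2 ^ 1 := by norm_num
        _ ≤ 2 ^ m := Nat.pow_le_pow_right (by norm_num) hm
    rcases (Nat.Prime.eq_one_or_self_of_dvd h1 2 ⟨_, h⟩) with h8 | h8 <;> omega
  omega

/-- For an odd prime `q`, the least multiplier is the least almost perfect number
`k` with `2 k ≥ q + 1`. -/
lemma a_prime {q : ℕ} (hq : q.Prime) (hq2 : q ≠ 2) :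
    IsLeast {k | IsAlmostPerfect k ∧ q + 1 ≤ 2 * k} (a q) := by
  have hodd : ¬ 2 ∣ q := fun h => hq2 ((Nat.prime_dvd_prime_iff_eq Nat.prime_two hq).1 h).symm
  have hl1 : 2 ^ Nat.log 2 q ≤ q := Nat.pow_log_le_self 2 hq.ne_zero
  have hl2 : q < 2 ^ (Nat.log 2 q + 1) := Nat.lt_pow_succ_log_self (by norm_num) q
  have hle : a q ≤ 2 ^ Nat.log 2 q := a_le (good_pow_of_dvd hq.one_le hodd hq.two_le dvd_rfl hl2)
  have hne : 2 ^ Nat.log 2 q ≠ q := by
    intro h
    rcases Nat.eq_zero_or_pos (Nat.log 2 q) with h0 | h0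
    · rw [h0] at h
      have := hq.two_le
      omega
    · apply hodd
      rw [← h]
      exact dvd_pow_self 2 (by omega)
  have hlt : a q < q := by omega
  have hg := (isLeast_a hq.two_le).1
  have hsq : sig q = q + 1 := by
    unfold sig
    rw [Nat.Prime.sum_divisors hq]
  constructor
  · obtain ⟨h1, h2, h3⟩ := hg
    have hc : Nat.Coprime (a q) q :=
      ((Nat.Prime.coprime_iff_not_dvd hq).2 fun h => by
        have := Nat.le_of_dvd h1 h
        omega).symm
    rw [sig_mul hc, hsq] at h3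
    obtain ⟨d, hd⟩ : ∃ d, 2 * a q = sig (a q) + d := ⟨2 * a q - sig (a q), by omega⟩
    have hd1 : 1 ≤ d := by omega
    have h4 : sig (a q) + d = 2 * a q := hd.symm
    have h5 : 2 * (a q * q) = (sig (a q) + d) * q := by rw [h4]; ring
    rw [h5] at h3
    have h6 : d * q ≤ sig (a q) := by nlinarith
    have h7 : d ≤ 1 := by
      by_contra hcon
      have : 2 * q ≤ d * q := Nat.mul_le_mul_right _ (by omega)
      omega
    have h8 : d = 1 := by omega
    subst h8
    exact ⟨⟨h1, by omega⟩, by omega⟩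
  · rintro k ⟨⟨h1, h2⟩, h3⟩
    rcases Nat.lt_or_ge k q with h4 | h4
    · apply a_le
      refine ⟨h1, by omega, ?_⟩
      have hc : Nat.Coprime k q :=
        ((Nat.Prime.coprime_iff_not_dvd hq).2 fun h => by
          have := Nat.le_of_dvd h1 h
          omega).symm
      rw [sig_mul hc, hsq]
      have h5 : 2 * (k * q) = (sig k + 1) * q := by rw [h2]; ring
      rw [h5]
      nlinarith
    · omega

lemma not_first {m n : ℕ} (hm : 1 ≤ m) (hn : 2 ≤ n) (hlt : n < p m) : a n ≠ 2 ^ m := by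
  intro h
  by_cases he : 2 ∣ n
  · -- even `n`
    have h1 : a n ≤ 3 := by
      rcases good_even hn he with h | h
      · exact (a_le h).trans (by norm_num)
      · exact a_le h
    have hm1 : m = 1 := by
      by_contra hc
      have : 2 ^ 2 ≤ 2 ^ m := Nat.pow_le_pow_right (by norm_num) (by omega)
      omega
    subst hm1
    have h3 : p 1 ≤ 3 := (isLeast_p 1).2 ⟨by norm_num, by norm_num⟩
    have hn2 : n = 2 := by omega
    subst hn2
    have hg := (isLeast_a (n := 2) le_rfl).1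
    rw [h] at hg
    have h4 := hg.2.2
    revert h4
    decide
  · -- odd `n`
    have hmin : n.minFac.Prime := Nat.minFac_prime (by omega)
    have hdvd : n.minFac ∣ n := Nat.minFac_dvd n
    have hlt2 : n.minFac < 2 ^ m := by
      rcases Nat.lt_trichotomy n.minFac (2 ^ m) with h1 | h1 | h1
      · exact h1
      · exfalso
        apply he
        refine dvd_trans ?_ hdvd
        rw [h1]
        exact dvd_pow_self 2 (by omega)
      · exfalso
        have h2 : p m ≤ n.minFac := (isLeast_p m).2 ⟨hmin, h1⟩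
        have h3 := Nat.minFac_le (n := n) (by omega)
        omega
    obtain ⟨j, rfl⟩ : ∃ j, m = j + 1 := ⟨m - 1, by omega⟩
    have h1 := a_le (good_pow_of_dvd (j := j) (by omega) he hmin.two_le hdvd hlt2)
    have h2 : 2 ^ (j + 1) = 2 * 2 ^ j := by ring
    have h3 : 1 ≤ 2 ^ j := Nat.one_le_two_pow
    omega

lemma ap_two_pow (m : ℕ) : IsAlmostPerfect (2 ^ m) := by
  have h1 := sig_two_pow m
  have h2 : 2 ^ (m + 1) = 2 * 2 ^ m := by ring
  exact ⟨Nat.one_le_two_pow, by omega⟩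

lemma p_ne_two {m : ℕ} (hm : 1 ≤ m) : p m ≠ 2 := by
  have h1 : 2 ^ 1 ≤ 2 ^ m := Nat.pow_le_pow_right (by norm_num) hm
  have h2 := (isLeast_p m).1.2
  omega

lemma crit {m : ℕ} (hm : 1 ≤ m) :
    a (p m) = 2 ^ m ↔ ∀ k : ℕ, IsAlmostPerfect k → p m + 1 ≤ 2 * k → 2 ^ m ≤ k := by
  have hl := a_prime (isLeast_p m).1.1 (p_ne_two hm)
  constructor
  · intro h k h1 h2
    rw [← h]
    exact hl.2 ⟨h1, h2⟩
  · intro h
    have h1 := p_lt m hm
    have h2 : 2 ^ (m + 1) = 2 * 2 ^ m := by ring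
    apply le_antisymm
    · exact hl.2 ⟨ap_two_pow m, by omega⟩
    · exact h _ hl.1.1 hl.1.2

lemma sig_split {N : ℕ} (hN : 0 < N) : sig N =
    ∑ d ∈ N.divisors with d * d < N, (d + N / d) + ∑ d ∈ N.divisors with d * d = N, d := by
  unfold sig
  have h1 := sum_filter_add_sum_filter_not N.divisors (fun d => d * d < N) (fun d => d)
  have h2 := sum_filter_add_sum_filter_not (N.divisors.filter fun d => ¬ d * d < N)
    (fun d => d * d = N) (fun d => d)
  rw [filter_filter, filter_filter] at h2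
  have h3 : (N.divisors.filter fun d => ¬ d * d < N ∧ d * d = N) =
      N.divisors.filter fun d => d * d = N := by
    refine filter_congr fun d _ => ⟨fun h => h.2, fun h => ⟨by omega, h⟩⟩
  have h4 : (N.divisors.filter fun d => ¬ d * d < N ∧ ¬ d * d = N) =
      N.divisors.filter fun d => N < d * d := by
    refine filter_congr fun d _ => ⟨fun h => by omega, fun h => ⟨by omega, by omega⟩⟩
  rw [h3, h4] at h2
  have h5 : ∑ d ∈ N.divisors with N < d * d, d = ∑ d ∈ N.divisors with d * d < N, N / d := by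
    symm
    have key : ∀ d ∈ N.divisors, 0 < d ∧ d * (N / d) = N ∧ N / d ∈ N.divisors := by
      intro d hd
      have hdN := Nat.dvd_of_mem_divisors hd
      exact ⟨Nat.pos_of_mem_divisors hd, Nat.mul_div_cancel' hdN,
        Nat.mem_divisors.2 ⟨Nat.div_dvd_of_dvd hdN, hN.ne'⟩⟩
    refine sum_nbij' (fun d => N / d) (fun d => N / d) ?_ ?_ ?_ ?_ (fun _ _ => rfl)
    · intro d hd
      obtain ⟨hd, hlt⟩ := mem_filter.1 hd
      obtain ⟨h0, h1, h2⟩ := key d hd
      refine mem_filter.2 ⟨h2, ?_⟩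
      by_contra hc
      have : d < N / d := by
        by_contra hc'
        have : d * (N / d) ≤ d * d := Nat.mul_le_mul_left _ (by omega)
        omega
      have : d * (N / d) < (N / d) * (N / d) := Nat.mul_lt_mul_of_pos_right this (by omega)
      omega
    · intro d hd
      obtain ⟨hd, hlt⟩ := mem_filter.1 hd
      obtain ⟨h0, h1, h2⟩ := key d hd
      refine mem_filter.2 ⟨h2, ?_⟩
      by_contra hc
      have hlt2 : N / d < d := by
        by_contra hc'
        have : d * d ≤ d * (N / d) := Nat.mul_le_mul_left _ (by omega)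
        omega
      have h3 : 0 < N / d := Nat.pos_of_mem_divisors h2
      have : (N / d) * (N / d) < d * (N / d) := Nat.mul_lt_mul_of_pos_right hlt2 h3
      omega
    · intro d hd
      obtain ⟨hd, hlt⟩ := mem_filter.1 hd
      exact Nat.div_div_self (Nat.dvd_of_mem_divisors hd) hN.ne'
    · intro d hd
      obtain ⟨hd, hlt⟩ := mem_filter.1 hd
      exact Nat.div_div_self (Nat.dvd_of_mem_divisors hd) hN.ne'
  rw [sum_add_distrib, ← h5]
  have h6 : ∑ d ∈ N.divisors, d = ∑ x ∈ N.divisors with x * x < N, x +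
      (∑ x ∈ N.divisors with x * x = N, x + ∑ x ∈ N.divisors with N < x * x, x) := by
    rw [h2, h1]
  rw [h6]
  ring

lemma square_of_odd_sig {N : ℕ} (hN : 0 < N) (ho : ¬ 2 ∣ N) (hs : ¬ 2 ∣ sig N) :
    ∃ m, N = m * m := by
  by_contra hc
  push Not at hc
  apply hs
  rw [sig_split hN]
  have h1 : (N.divisors.filter fun d => d * d = N) = ∅ := by
    rw [filter_eq_empty_iff]
    intro d _ h
    exact hc d h.symm
  rw [h1, sum_empty, add_zero]
  refine dvd_sum fun d hd => ?_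
  obtain ⟨hd, _⟩ := mem_filter.1 hd
  have hdN := Nat.dvd_of_mem_divisors hd
  have h2 : d * (N / d) = N := Nat.mul_div_cancel' hdN
  have h3 : ¬ 2 ∣ d := fun h => ho (h2 ▸ h.mul_right _)
  have h4 : ¬ 2 ∣ N / d := fun h => ho (h2 ▸ h.mul_left _)
  omega

/-- sum of `d + N / d` over the divisors `d ≤ t` -/
def S (N : ℕ) : ℕ → ℕ
  | 0 => 0
  | t + 1 => S N t + cond (Nat.beq (N % (t + 1)) 0) (t + 1 + N / (t + 1)) 0

lemma beq_true {x y : ℕ} (h : x = y) : Nat.beq x y = true := by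
  subst h; exact Nat.beq_refl x

lemma beq_false {x y : ℕ} (h : x ≠ y) : Nat.beq x y = false := by
  cases h' : Nat.beq x y
  · rfl
  · exact absurd (Nat.eq_of_beq_eq_true h') h

lemma S_eq (N t : ℕ) : S N t = ∑ d ∈ (Icc 1 t) with d ∣ N, (d + N / d) := by
  induction t with
  | zero => simp [S]
  | succ t ih =>
    have h1 : (Icc 1 (t + 1)) = insert (t + 1) (Icc 1 t) := by
      ext x; simp only [mem_Icc, mem_insert]; omega
    rw [S, ih, h1, filter_insert]
    by_cases h : t + 1 ∣ N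
    · rw [if_pos h, sum_insert (by simp)]
      have : N % (t + 1) = 0 := Nat.mod_eq_zero_of_dvd h
      rw [this]
      simp
      ring
    · rw [if_neg h]
      have : N % (t + 1) ≠ 0 := fun h' => h (Nat.dvd_of_mod_eq_zero h')
      rw [beq_false this]
      simp

lemma sig_sq {m : ℕ} (hm : 1 ≤ m) : sig (m * m) = S (m * m) (m - 1) + m := by
  have hN : 0 < m * m := Nat.mul_pos hm hm
  rw [sig_split hN, S_eq]
  congr 1
  · refine sum_congr ?_ fun _ _ => rfl
    ext d
    simp only [mem_filter, Nat.mem_divisors, mem_Icc]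
    constructor
    · rintro ⟨⟨h1, h2⟩, h3⟩
      have h4 : d < m := by
        by_contra hc
        have : m * m ≤ d * d := Nat.mul_le_mul (by omega) (by omega)
        omega
      have h5 : 0 < d := Nat.pos_of_dvd_of_pos h1 hN
      exact ⟨⟨by omega, by omega⟩, h1⟩
    · rintro ⟨⟨h1, h2⟩, h3⟩
      exact ⟨⟨h3, hN.ne'⟩, Nat.mul_self_lt_mul_self (by omega)⟩
  · have h1 : ((m * m).divisors.filter fun d => d * d = m * m) = {m} := by
      ext d
      simp only [mem_filter, Nat.mem_divisors, mem_singleton]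
      constructor
      · rintro ⟨_, h⟩
        exact Nat.mul_self_inj.1 h
      · rintro rfl
        exact ⟨⟨Dvd.intro _ rfl, hN.ne'⟩, rfl⟩
    rw [h1, sum_singleton]

/-- no `Q = 2 ^ (r + 1)`, `r < 20`, has `(Q - 1) * A = B` -/
def noPow (A B : ℕ) : ℕ → Bool
  | 0 => true
  | r + 1 => cond (Nat.beq ((2 ^ (r + 1) - 1) * A) B) false (noPow A B r)

lemma noPow_spec (A B R : ℕ) (h : noPow A B R = true) : ∀ r < R, (2 ^ (r + 1) - 1) * A ≠ B := by
  induction R with
  | zero => intro r hr; omega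
  | succ R ih =>
    intro r hr
    unfold noPow at h
    rcases Nat.lt_or_ge r R with h1 | h1
    · apply ih _ r h1
      by_cases h2 : (2 ^ (R + 1) - 1) * A = B
      · rw [beq_true h2] at h; simp at h
      · rw [beq_false h2] at h; simpa using h
    · obtain rfl : r = R := by omega
      intro h2
      rw [beq_true h2] at h
      simp at h

def chk (i : ℕ) : Bool :=
  noPow (S ((2 * i + 3) * (2 * i + 3)) (2 * i + 2) + (2 * i + 3) - (2 * i + 3) * (2 * i + 3))
    ((2 * i + 3) * (2 * i + 3) - 1) 20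

def chkAll : ℕ → Bool
  | 0 => true
  | i + 1 => cond (chk i) (chkAll i) false

lemma chkAll_spec (N : ℕ) (h : chkAll N = true) : ∀ i < N, chk i = true := by
  induction N with
  | zero => intro i hi; omega
  | succ N ih =>
    intro i hi
    unfold chkAll at h
    cases hc : chk N with
    | false => rw [hc] at h; simp at h
    | true =>
      rw [hc] at h
      rcases Nat.lt_or_ge i N with h1 | h1
      · exact ih (by simpa using h) i h1
      · obtain rfl : i = N := by omega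
        exact hc

lemma chk499 : chkAll 499 = true := by decide +kernel

/-- Every almost perfect number below `1001 ^ 2` is a power of two. -/
lemma small {k : ℕ} (hk : IsAlmostPerfect k) (hlt : k < 1002001) : ∃ j, k = 2 ^ j := by
  obtain ⟨hk1, hks⟩ := hk
  obtain ⟨r, M, hM, hkM⟩ := Nat.exists_eq_two_pow_mul_odd (n := k) (by omega)
  have hM2 : ¬ 2 ∣ M := fun h => by
    obtain ⟨c, hc⟩ := hM
    omega
  have hM0 : 0 < M := by
    obtain ⟨c, hc⟩ := hM
    omega
  by_cases hM1 : M = 1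
  · exact ⟨r, by rw [hkM, hM1, mul_one]⟩
  exfalso
  have hc : Nat.Coprime (2 ^ r) M :=
    Nat.Coprime.pow_left _ ((Nat.Prime.coprime_iff_not_dvd Nat.prime_two).2 hM2)
  have h1 := sig_two_pow r
  have h2 : 2 ^ (r + 1) = 2 * 2 ^ r := by ring
  have h3 : 1 ≤ 2 ^ r := Nat.one_le_two_pow
  rw [hkM, sig_mul hc] at hks
  have h4 : sig (2 ^ r) = 2 ^ (r + 1) - 1 := by omega
  rw [h4] at hks
  have h5 : 2 * (2 ^ r * M) = 2 ^ (r + 1) * M := by rw [h2]; ring
  rw [h5] at hks
  have hodd : ¬ 2 ∣ sig M := by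
    rintro ⟨c, hc⟩
    rw [hc] at hks
    have h6 : 2 ^ (r + 1) * M = 2 * (2 ^ r * M) := h5.symm
    have h7 : (2 ^ (r + 1) - 1) * (2 * c) = 2 * ((2 ^ (r + 1) - 1) * c) := by ring
    omega
  obtain ⟨m, rfl⟩ := square_of_odd_sig hM0 hM2 hodd
  have hm2 : ¬ 2 ∣ m := fun h => hM2 (h.mul_right _)
  have hm3 : 3 ≤ m := by
    by_contra hcon
    have : m = 0 ∨ m = 1 ∨ m = 2 := by omega
    rcases this with rfl | rfl | rfl
    · simp at hM0
    · simp at hM1
    · simp at hm2
  have hmk : m * m ≤ k := by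
    rw [hkM]; exact Nat.le_mul_of_pos_left _ h3
  have hm1001 : m < 1001 := by
    by_contra hcon
    have : 1001 * 1001 ≤ m * m := Nat.mul_le_mul (by omega) (by omega)
    omega
  have hr20 : r < 20 := by
    by_contra hcon
    have h6 : 2 ^ 20 ≤ 2 ^ r := Nat.pow_le_pow_right (by norm_num) (by omega)
    have h7 : 2 ^ r * 1 ≤ 2 ^ r * (m * m) := Nat.mul_le_mul_left _ hM0
    rw [← hkM] at h7
    norm_num at h6
    omega
  obtain ⟨i, hi⟩ : ∃ i, m = 2 * i + 3 := ⟨(m - 3) / 2, by omega⟩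
  have hchk := chkAll_spec 499 chk499 i (by omega)
  unfold chk at hchk
  have hsp := noPow_spec _ _ _ hchk r hr20
  apply hsp
  have h6 := sig_sq (m := m) (by omega)
  have h7 : m - 1 = 2 * i + 2 := by omega
  rw [h7] at h6
  rw [← hi, ← h6]
  rw [Nat.mul_sub]
  obtain ⟨R, hR⟩ : ∃ R, 2 ^ (r + 1) = R + 1 := ⟨2 ^ (r + 1) - 1, by omega⟩
  rw [hR] at hks ⊢
  have e : R + 1 - 1 = R := by omega
  rw [e] at hks ⊢
  have e2 : (R + 1) * (m * m) = R * (m * m) + m * m := by ring
  omega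


/-- No integer `2 ≤ n < p m` has `a n = 2 ^ m`; for every odd prime `q` the value `a q` is the
least almost perfect number `k` with `2 k ≥ q + 1`; hence the assertion for `m` holds if and only
if there is no almost perfect number `k` with `(p m + 1) / 2 ≤ k < 2 ^ m`; it holds for all
`m ≤ 19`; and it holds for all `m` if every almost perfect number is a power of two. -/
theorem result :
    (∀ n : ℕ, 2 ≤ n → IsLeast {k | Good n k} (a n)) ∧
    (∀ m : ℕ, IsLeast {q | q.Prime ∧ 2 ^ m < q} (p m)) ∧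
    (∀ m n : ℕ, 1 ≤ m → 2 ≤ n → n < p m → a n ≠ 2 ^ m) ∧
    (∀ q : ℕ, q.Prime → q ≠ 2 → IsLeast {k | IsAlmostPerfect k ∧ q + 1 ≤ 2 * k} (a q)) ∧
    (∀ m : ℕ, 1 ≤ m →
      (IsLeast {n | 2 ≤ n ∧ a n = 2 ^ m} (p m) ↔
        ¬ ∃ k : ℕ, IsAlmostPerfect k ∧ p m + 1 ≤ 2 * k ∧ k < 2 ^ m)) ∧
    (∀ m : ℕ, 1 ≤ m → m ≤ 19 → IsLeast {n | 2 ≤ n ∧ a n = 2 ^ m} (p m)) ∧
    ((∀ k : ℕ, IsAlmostPerfect k → ∃ j, k = 2 ^ j) →
      ∀ m : ℕ, 1 ≤ m → IsLeast {n | 2 ≤ n ∧ a n = 2 ^ m} (p m)) := by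
  have hiff : ∀ m : ℕ, 1 ≤ m →
      (IsLeast {n | 2 ≤ n ∧ a n = 2 ^ m} (p m) ↔
        ¬ ∃ k : ℕ, IsAlmostPerfect k ∧ p m + 1 ≤ 2 * k ∧ k < 2 ^ m) := by
    intro m hm
    constructor
    · rintro h ⟨k, h1, h2, h3⟩
      have := (crit hm).1 h.1.2 k h1 h2
      omega
    · intro h
      refine ⟨⟨(isLeast_p m).1.1.two_le, (crit hm).2 fun k h1 h2 => ?_⟩, ?_⟩
      · by_contra hc
        exact h ⟨k, h1, h2, by omega⟩
      · rintro n ⟨h1, h2⟩
        by_contra hc
        exact not_first hm h1 (by omega) h2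
  have hpow : ∀ m : ℕ, 1 ≤ m →
      (∀ k : ℕ, IsAlmostPerfect k → k < 2 ^ m → ∃ j, k = 2 ^ j) →
      IsLeast {n | 2 ≤ n ∧ a n = 2 ^ m} (p m) := by
    intro m hm h
    rw [hiff m hm]
    rintro ⟨k, h1, h2, h3⟩
    obtain ⟨j, rfl⟩ := h k h1 h3
    have h4 : j < m := (Nat.pow_lt_pow_iff_right (by norm_num)).1 h3
    have h5 : 2 ^ (j + 1) ≤ 2 ^ m := Nat.pow_le_pow_right (by norm_num) (by omega)
    have h6 : 2 ^ (j + 1) = 2 * 2 ^ j := by ring
    have h7 := (isLeast_p m).1.2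
    omega
  refine ⟨fun n hn => isLeast_a hn, isLeast_p, fun m n hm hn h => not_first hm hn h,
    fun q hq h => a_prime hq h, hiff, ?_, ?_⟩
  · intro m hm hm19
    apply hpow m hm
    intro k hk hlt
    apply small hk
    have : 2 ^ m ≤ 2 ^ 19 := Nat.pow_le_pow_right (by norm_num) hm19
    omega
  · intro h m hm
    exact hpow m hm fun k hk _ => h k hk

end Pool.Agent.Results.MP_bcda77_nt.AlmostPerfectWindow
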